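import Pool.Agent.H61.HL.Low

/-!
# The band around the middle codimension
-/

open CategoryTheory AlgebraicGeometry Filter Topology

universe u v

namespace Pool.Agent.H61.HL

open Pool.Agent.H914 Pool.Agent.H914.VarClass Pool.Agent.H914.VarClass.Obj
  Pool.Agent.H914.WeilCohomology Pool.Agent.H281R3.HT Pool.Agent.W552 Pool.Agent.W539.Ker
  Pool.Agent.H44T.SL

variable {k : Type u} [Field k] {𝒱 : VarClass k} {ops : CycleOps 𝒱}
  {W : WeilCohomology.{u, v} ops} {X P Z : Polarized 𝒱}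

/-- A variety with a negative primitive class has positive dimension. -/
lemma dim_pos (hX : IsGood W X) {m n : ℕ} (hn : 2 * n ≤ (times ops X X m).X.dim)
    {z : (times ops X X m).X.Cycles} (hz : Primitive W (times ops X X m).X (times ops X X m).D n z)
    (hneg : pairing ops (times ops X X m).X (times ops X X m).D n z z < 0) : 0 < X.X.dim := by
  by_contra h0
  rw [← tw_eq_times] at hn
  obtain ⟨fP, G, -⟩ := hX.dat
  have hd : (tw ops X m X).X.dim = 0 := by
    rw [tw_dim]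
    have : X.X.dim = 0 := by omega
    rw [this]; simp
  revert z
  rw [← tw_eq_times]
  intro z hz hneg
  have GY := G.tw G m
  have hn0 : n = 0 := by omega
  subst hn0
  exact absurd (pairing_zero GY.fr.hD GY.deg hz.1 W) (not_le.2 hneg)

/-- A number `ε` with `N ^ ε = 1 / √γ`. -/
lemma exists_eps {γ : ℝ} (h0 : 0 < γ) (h1 : γ < 1) {N : ℕ} (hN : 2 ≤ N) :
    ∃ ε : ℝ, 0 < ε ∧ ε ≤ 1 / 2 ∧ ∀ J r : ℕ, (J : ℝ) ≤ ε * r →
      (N : ℝ) ^ J * (Real.sqrt γ) ^ r ≤ 1 := by
  have hs0 : 0 < Real.sqrt γ := Real.sqrt_pos.2 h0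
  have hs1 : Real.sqrt γ < 1 := by
    rw [Real.sqrt_lt' one_pos]; simpa using h1
  have hN1 : (1 : ℝ) < N := by exact_mod_cast (by omega : 1 < N)
  have hN0 : (0 : ℝ) < N := by linarith
  set t : ℝ := - Real.log (Real.sqrt γ) / Real.log N with ht
  have hl1 : Real.log (Real.sqrt γ) < 0 := Real.log_neg hs0 hs1
  have hl2 : 0 < Real.log N := Real.log_pos hN1
  have ht0 : 0 < t := div_pos (by linarith) hl2
  refine ⟨min t (1 / 2), lt_min ht0 (by norm_num), min_le_right _ _, fun J r hJ => ?_⟩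
  have h2 : (J : ℝ) ≤ t * r := hJ.trans (mul_le_mul_of_nonneg_right (min_le_left _ _)
    (Nat.cast_nonneg r))
  rw [← Real.log_nonpos_iff (by positivity), Real.log_mul (by positivity) (by positivity),
    Real.log_pow, Real.log_pow]
  have h3 : (J : ℝ) * Real.log N ≤ t * r * Real.log N := mul_le_mul_of_nonneg_right h2 hl2.le
  have h4 : t * r * Real.log N = - (r * Real.log (Real.sqrt γ)) := by
    rw [ht]; field_simp
  linarith

/-- **The local law in a band around the middle codimension.** -/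
theorem band (hX : IsGood W X) {m n : ℕ} (hn : 2 * n ≤ (times ops X X m).X.dim)
    {z : (times ops X X m).X.Cycles} (hz : Primitive W (times ops X X m).X (times ops X X m).D n z)
    (hneg : pairing ops (times ops X X m).X (times ops X X m).D n z z < 0) :
    2 ≤ Module.finrank W.K (W.H X.X) ∧
    ∃ ε ρ : ℝ, 0 < ε ∧ 0 < ρ ∧ ρ < 1 ∧ ∀ Z : Polarized 𝒱, IsGood W Z →
      ∃ (C : ℝ) (r₀ : ℕ), 0 < C ∧ ∀ r n : ℕ, r₀ ≤ r → 2 * n ≤ (times ops Z X r).X.dim →
        ((times ops Z X r).X.dim : ℝ) ≤ 2 * n + ε * r →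
        |(posNum W (times ops Z X r).X (times ops Z X r).D n : ℝ) -
            negNum W (times ops Z X r).X (times ops Z X r).D n| ≤
          C * ρ ^ r * ((posNum W (times ops Z X r).X (times ops Z X r).D n : ℝ) +
            negNum W (times ops Z X r).X (times ops Z X r).D n) ∧
        (Module.finrank W.K (W.H X.X) : ℝ) ^ r ≤
          C * (r + 1) ^ (2 * Module.finrank W.K (W.H X.X) ^ 2 + 4) *
            (Module.finrank W.K (W.H X.X) : ℝ) ^ ((times ops Z X r).X.dim - 2 * n) *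
            ((posNum W (times ops Z X r).X (times ops Z X r).D n : ℝ) +
              negNum W (times ops Z X r).X (times ops Z X r).D n) := by
  have hd := dim_pos hX hn hz hneg
  obtain ⟨γ, hγ0, hγ1, hlaw⟩ := law hX hn hz hneg
  obtain ⟨fP, G, hpar⟩ := hX.dat
  set N := Module.finrank W.K (W.H X.X) with hN
  have hN2 : 2 ≤ N := by
    rw [← tw_eq_times] at hn
    have key : 2 ≤ N ^ (m + 1) := by
      revert z
      rw [← tw_eq_times]
      intro z hz hneg
      have GY := G.tw G m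
      have h2 := two_le GY.fr GY.sy GY.deg hn hz hneg
      rwa [tw_finrank, ← pow_succ', ← hN] at h2
    by_contra hlt
    have h3 : N ^ (m + 1) ≤ 1 ^ (m + 1) := Nat.pow_le_pow_left (by omega) _
    rw [one_pow] at h3
    omega
  have hN0 : (0 : ℝ) < N := by exact_mod_cast (by omega : 0 < N)
  have hs0 : 0 < Real.sqrt γ := Real.sqrt_pos.2 hγ0
  have hs1 : Real.sqrt γ < 1 := by rw [Real.sqrt_lt' one_pos]; simpa using hγ1
  have hss : Real.sqrt γ * Real.sqrt γ = γ := Real.mul_self_sqrt hγ0.le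
  obtain ⟨ε, hε0, hε1, hε⟩ := exists_eps hγ0 hγ1 hN2
  obtain ⟨B, hB0, hB⟩ := poly_geom hs0 hs1 (2 * N ^ 2 + 4)
  refine ⟨hN2, ε, Real.sqrt (Real.sqrt γ), hε0, Real.sqrt_pos.2 hs0,
    by rw [Real.sqrt_lt' one_pos]; simpa using hs1, fun Z hZ => ?_⟩
  obtain ⟨C, hC, hr⟩ := hlaw Z hZ
  obtain ⟨fZ, F, -⟩ := hZ.dat
  set A : ℝ := (N : ℝ) ^ (Z.X.dim + 5) * (N * (2 * X.X.dim + 1) * (X.X.dim + 1)) ^ 2 with hA
  have hA0 : 0 < A := by positivity
  refine ⟨C * A * B + A, 2 * (Z.X.dim + 5), by positivity, fun r j hr0 hj hjb => ?_⟩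
  obtain ⟨J, hJ⟩ : ∃ J, (times ops Z X r).X.dim = 2 * j + J := ⟨_, (Nat.add_sub_of_le hj).symm⟩
  have hJr : (J : ℝ) ≤ ε * r := by
    rw [hJ] at hjb
    push_cast at hjb
    linarith
  have hJ2 : 2 * J ≤ r := by
    have h1 : (J : ℝ) ≤ 1 / 2 * r := hJr.trans (mul_le_mul_of_nonneg_right hε1 (Nat.cast_nonneg r))
    have h2 : (2 * J : ℝ) ≤ r := by linarith
    exact_mod_cast h2
  have hlow := pn_ge G hpar F hd (J := J) (r := r) (n := j) (by omega)
    (by rw [tw_eq_times]; exact hj) (by rw [tw_eq_times]; omega)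
  rw [tw_eq_times, ← hN] at hlow
  have hlow' : (N : ℝ) ^ r ≤ (N : ℝ) ^ J * A * ((r : ℝ) + 1) ^ (2 * N ^ 2 + 4) *
      ((posNum W (times ops Z X r).X (times ops Z X r).D j : ℝ) +
        negNum W (times ops Z X r).X (times ops Z X r).D j) := by
    have h1 : ((N ^ r : ℕ) : ℝ) ≤ ((N ^ (Z.X.dim + J + 5) * (N * (2 * X.X.dim + 1) *
      (X.X.dim + 1)) ^ 2 * (r + 1) ^ (2 * N ^ 2 + 4) *
      pn W (times ops Z X r).X (times ops Z X r).D j : ℕ) : ℝ) := Nat.cast_le.2 hlow
    rw [pn] at h1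
    push_cast at h1
    refine h1.trans (le_of_eq ?_)
    rw [hA, show Z.X.dim + J + 5 = J + (Z.X.dim + 5) by ring, pow_add]
    ring
  set T : ℝ := (posNum W (times ops Z X r).X (times ops Z X r).D j : ℝ) +
        negNum W (times ops Z X r).X (times ops Z X r).D j with hT
  have hT0 : 0 ≤ T := by positivity
  have h1 := (hr r).2 j hj
  have e1 : (times ops Z X r).X.dim - 2 * j = J := by omega
  rw [e1]
  constructor
  · calc _ ≤ C * γ ^ r * (N : ℝ) ^ r := h1
      _ ≤ C * γ ^ r * ((N : ℝ) ^ J * A * ((r : ℝ) + 1) ^ (2 * N ^ 2 + 4) * T) := by gcongr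
      _ = C * A * ((N : ℝ) ^ J * (Real.sqrt γ) ^ r) * (((r : ℝ) + 1) ^ (2 * N ^ 2 + 4) *
            (Real.sqrt γ) ^ r) * T := by
          rw [← hss, mul_pow, hss]; ring
      _ ≤ C * A * 1 * (B * (Real.sqrt (Real.sqrt γ)) ^ r) * T := by
          apply mul_le_mul_of_nonneg_right _ hT0
          apply mul_le_mul _ (hB r) (by positivity) (by positivity)
          exact mul_le_mul_of_nonneg_left (hε J r hJr) (by positivity)
      _ = C * A * B * (Real.sqrt (Real.sqrt γ)) ^ r * T := by ring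
      _ ≤ _ := by
          apply mul_le_mul_of_nonneg_right _ hT0
          apply mul_le_mul_of_nonneg_right _ (by positivity)
          linarith
  · refine hlow'.trans ?_
    have h2 : (N : ℝ) ^ J * A * ((r : ℝ) + 1) ^ (2 * N ^ 2 + 4) * T =
        A * ((r : ℝ) + 1) ^ (2 * N ^ 2 + 4) * (N : ℝ) ^ J * T := by ring
    rw [h2]
    apply mul_le_mul_of_nonneg_right _ hT0
    apply mul_le_mul_of_nonneg_right _ (by positivity)
    apply mul_le_mul_of_nonneg_right _ (by positivity)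
    have : 0 ≤ C * A * B := by positivity
    linarith

end Pool.Agent.H61.HL
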