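import Pool.Agent.H61.HL.Prd
import Pool.Graph.R_pool_sql_team_seeded_35f281b4.K7.H9.R4C

/-!
# Existence of primitive classes with nonzero squares on products
-/

open CategoryTheory AlgebraicGeometry Finset

universe u v

namespace Pool.Agent.H61.HL

open Pool.Agent.H914 Pool.Agent.H914.VarClass Pool.Agent.H914.VarClass.Obj
  Pool.Agent.H914.WeilCohomology Pool.Agent.H281R3.HT Pool.Agent.W552 Pool.Agent.W539.Ker
  Pool.Agent.H44T.SL

variable {k : Type u} [Field k] {𝒱 : VarClass k} {ops : CycleOps 𝒱}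
  {W : WeilCohomology.{u, v} ops} {X Y Z : 𝒱.Obj} {D : X.Cycles} {E : Y.Cycles}
  {f : Module.End W.K (W.H X)} {g : Module.End W.K (W.H Y)}

/-- If there are no primitive classes of codimension `j`, the classes of codimension `j` are
orthogonal to the classes killed by the divisor. -/
theorem tr_mul_eq_zero (F : Fr W X D f) {j : ℕ} (hj : 2 * j ≤ X.dim) (h0 : pn W X D j = 0)
    {z u : W.H X} (hz : z ∈ algClasses W X j) (hu : u ∈ algClasses W X (X.dim - j))
    (hLu : Lm W X D u = 0) : W.tr X (z * u) = 0 := by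
  obtain ⟨w, hw, rfl⟩ := hu
  obtain ⟨y, hy, hyw⟩ := F.lefschetzA j hj w hw
  rw [cl_divPow] at hyw
  have hyp : Primitive W X D j y := by
    refine ⟨hy, ?_⟩
    rw [cl_divPow, pow_succ', Module.End.mul_apply, hyw]
    exact hLu
  obtain ⟨v, hv, hs, hvp⟩ := K7.H9.exists_prims F hz
  rw [hs, sum_mul, map_sum]
  apply Finset.sum_eq_zero
  intro b hb
  rw [L_pow_self F.hD]
  rcases Nat.eq_zero_or_pos b with rfl | hb0
  · rw [pow_zero, Module.End.one_apply]
    rcases hvp 0 hb with h1 | ⟨-, -, x, hx, hvx⟩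
    · rw [pow_zero, Module.End.one_apply] at h1
      rw [h1, zero_mul, map_zero]
    · rw [Nat.sub_zero] at hx
      have h2 := pairing_eq_zero F.hD hj h0 hx hyp
      have h3 := pairing_cast (W := W) F.hD hj hx.1 hyp.1
      rw [h2, Rat.cast_zero, hyw] at h3
      rw [hvx]
      exact (mul_eq_zero.1 h3.symm).resolve_left (pow_ne_zero _ (neg_ne_zero.2 one_ne_zero))
  · obtain ⟨c, rfl⟩ : ∃ c, b = c + 1 := ⟨b - 1, by omega⟩
    rw [pow_succ, Module.End.mul_apply]
    have : (LinearMap.mulLeft W.K (W.cl X D)) (W.cl X w) = 0 := hLu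
    rw [this, map_zero, mul_zero, map_zero]

lemma ext_mul_ext {a a' : W.H X} {b b' : W.H Y} {j : ℕ} (hb : b ∈ W.gr Y (2 * j)) :
    ext W a b * ext W a' b' = ext W (a * a') (b * b') := by
  rw [H281R3.HT.ext, H281R3.HT.ext, H281R3.HT.ext, map_mul, map_mul, mul_assoc, mul_assoc,
    ← mul_assoc (W.map (snd X Y) b), W.even_comm (W.map_mem (snd X Y) hb), mul_assoc]

lemma tr_ext' (a : W.H X) (b : W.H Y) : W.tr (X.prod Y) (ext W a b) = W.tr X a * W.tr Y b :=
  W.tr_prod a b

/-- **Existence of primitive classes on a product.** -/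
theorem one_le_pn (F : Fr W X D f) (G : Fr W Y E g) {a b : ℕ} (ha : 2 * a ≤ X.dim)
    (hb : 2 * b ≤ Y.dim) {x : X.Cycles} {y : Y.Cycles} (hx : Primitive W X D a x)
    (hy : Primitive W Y E b y) (hx0 : pairing ops X D a x x ≠ 0)
    (hy0 : pairing ops Y E b y y ≠ 0) {m : ℕ} (hm : m ≤ X.dim - 2 * a)
    (hm' : m ≤ Y.dim - 2 * b) : 1 ≤ pn W (X.prod Y) (sD ops D E) (a + b + m) := by
  by_contra hcon
  have h0 : pn W (X.prod Y) (sD ops D E) (a + b + m) = 0 := by omega
  set c := W.cl X x with hc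
  set e := W.cl Y y with he
  have hcA : c ∈ algClasses W X a := ⟨x, hx.1, rfl⟩
  have heA : e ∈ algClasses W Y b := ⟨y, hy.1, rfl⟩
  set K := X.dim - 2 * a with hK
  set K' := Y.dim - 2 * b with hK'
  have hcL : (Lm W X D ^ (K + 1)) c = 0 := by rw [hc, ← cl_divPow]; exact hx.2
  have heL : (Lm W Y E ^ (K' + 1)) e = 0 := by rw [he, ← cl_divPow]; exact hy.2
  have hz : ext W ((Lm W X D ^ m) c) e ∈ algClasses W (X.prod Y) (a + b + m) := by
    have := ext_alg (L_alg F hcA m) heA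
    rwa [show a + m + b = a + b + m by ring] at this
  have hu : alt W D E m ((Lm W X D ^ (K - m)) c) ((Lm W Y E ^ (K' - m)) e) ∈
      algClasses W (X.prod Y) ((X.prod Y).dim - (a + b + m)) := by
    have := alt_alg F G (L_alg F hcA (K - m)) (L_alg G heA (K' - m)) m
    rwa [show a + (K - m) + (b + (K' - m)) + m = (X.prod Y).dim - (a + b + m) by
      rw [dim_prod]; omega] at this
  have hLu : Lm W (X.prod Y) (sD ops D E)
      (alt W D E m ((Lm W X D ^ (K - m)) c) ((Lm W Y E ^ (K' - m)) e)) = 0 := by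
    rw [L_alt G.hD, ← Module.End.mul_apply, ← pow_add, ← Module.End.mul_apply, ← pow_add,
      show m + 1 + (K' - m) = K' + 1 by omega, show m + 1 + (K - m) = K + 1 by omega, hcL, heL,
      ext_zero_left, ext_zero_right, smul_zero, add_zero]
  have h1 := tr_mul_eq_zero (F.prod G) (j := a + b + m) (by rw [dim_prod]; omega) h0 hz hu hLu
  rw [alt, Finset.mul_sum, map_sum, Finset.sum_eq_single 0] at h1
  · rw [pow_zero, one_smul, pow_zero, Module.End.one_apply, Nat.sub_zero,
      ext_mul_ext (alg_gr heA), tr_ext', ← Module.End.mul_apply (Lm W Y E ^ m), ← pow_add,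
      show m + (K' - m) = K' by omega, L_pow_self F.hD, ← Module.End.mul_apply, ← pow_add,
      show m + (K - m) = K by omega] at h1
    have h2 := pairing_cast (W := W) F.hD ha hx.1 hx.1
    have h3 := pairing_cast (W := W) G.hD hb hy.1 hy.1
    rcases mul_eq_zero.1 h1 with h | h
    · have h' : W.tr X (W.cl X x * ((LinearMap.mulLeft W.K (W.cl X D)) ^ (X.dim - 2 * a))
        (W.cl X x)) = 0 := h
      rw [h', mul_zero] at h2
      exact hx0 (by exact_mod_cast h2)
    · have h' : W.tr Y (W.cl Y y * ((LinearMap.mulLeft W.K (W.cl Y E)) ^ (Y.dim - 2 * b))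
        (W.cl Y y)) = 0 := h
      rw [h', mul_zero] at h3
      exact hy0 (by exact_mod_cast h3)
  · intro t ht ht0
    rw [Finset.mem_range] at ht
    rw [mul_smul_comm, map_smul, ext_mul_ext (alg_gr heA), tr_ext']
    have h2 : W.tr X ((Lm W X D ^ m) c * (Lm W X D ^ t) ((Lm W X D ^ (K - m)) c)) = 0 := by
      apply W.tr_eq_zero (W.mul_mem (alg_gr (L_alg F hcA m))
        (alg_gr (L_alg F (L_alg F hcA (K - m)) t)))
      omega
    rw [h2, zero_mul, smul_zero]
  · intro h; exact absurd (Finset.mem_range.2 (Nat.succ_pos m)) h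

/-- The representation of `sl(2)` of dimension `l + 1` occurs in the numerical classes. -/
def Wt (W : WeilCohomology.{u, v} ops) (P : Polarized 𝒱) (l : ℕ) : Prop :=
  ∃ (a : ℕ) (x : P.X.Cycles), P.X.dim = 2 * a + l ∧ Primitive W P.X P.D a x ∧
    pairing ops P.X P.D a x x ≠ 0

lemma Wt.one_le {P : Polarized 𝒱} {l : ℕ} (h : Wt W P l) (hD : P.X.IsCyc 1 P.D) {a : ℕ}
    (ha : P.X.dim = 2 * a + l) : 1 ≤ pn W P.X P.D a := by
  obtain ⟨a', x, ha', hx, hx0⟩ := h
  obtain rfl : a = a' := by omega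
  have : IsFam W P.X P.D a (fun _ : Fin 1 => x) :=
    ⟨fun _ => hx, fun _ => hx0, fun i j hij => absurd (Subsingleton.elim i j) hij⟩
  have h1 := this.card_le hD (by omega)
  rwa [Fintype.card_fin] at h1

lemma wt_of_one_le {P : Polarized 𝒱} {l a : ℕ} (hD : P.X.IsCyc 1 P.D) (ha : P.X.dim = 2 * a + l)
    (h : 1 ≤ pn W P.X P.D a) : Wt W P l := by
  obtain ⟨z, hz⟩ := exists_isFam W hD (n := a) (by omega)
  exact ⟨a, z ⟨0, h⟩, ha, hz.prim _, hz.ne _⟩

variable {P Q : Polarized 𝒱} {fP : Module.End W.K (W.H P.X)} {fQ : Module.End W.K (W.H Q.X)}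

/-- The rule of Clebsch and Gordan. -/
lemma Wt.prod (F : Fr W P.X P.D fP) (G : Fr W Q.X Q.D fQ) {p q l : ℕ} (hP : Wt W P p)
    (hQ : Wt W Q q) (h1 : l ≤ p + q) (h2 : p ≤ q + l) (h3 : q ≤ p + l)
    (h4 : (p + q + l) % 2 = 0) : Wt W (P.prod ops Q) l := by
  obtain ⟨a, x, ha, hx, hx0⟩ := hP
  obtain ⟨b, y, hb, hy, hy0⟩ := hQ
  have h5 := one_le_pn F G (by omega) (by omega) hx hy hx0 hy0 (m := (p + q - l) / 2)
    (by omega) (by omega)
  refine wt_of_one_le (P := P.prod ops Q) (sD_cyc F.hD G.hD) ?_ h5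
  change P.X.dim + Q.X.dim = _
  omega

lemma wt_top (hD : P.X.IsCyc 1 P.D)
    (hdeg : 0 < P.X.V.degCycle (divPow ops P.D P.X.dim P.X.V.fundCycle)) :
    Wt W P P.X.dim :=
  ⟨0, P.X.V.fundCycle, by omega, fund_prim hD, by rw [pairing_fund W hD]; exact hdeg.ne'⟩

variable {Z : Polarized 𝒱} {fZ : Module.End W.K (W.H Z.X)}

/-- All weights occur on the product with a sufficiently large power. -/
theorem wt_tower (G : Dat W P fP) (F : Dat W Z fZ) : ∀ (s : ℕ) {l : ℕ},
    l ≤ Z.X.dim + (s + 2) * P.X.dim → Z.X.dim ≤ l + (s + 2) * P.X.dim →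
    (Z.X.dim + (s + 2) * P.X.dim + l) % 2 = 0 → Wt W (tw ops P (s + 2) Z) l
  | 0, l, h1, h2, h3 => by
    set d := P.X.dim with hd
    set e := Z.X.dim with he
    have hP : Wt W P d := wt_top G.fr.hD G.deg
    have hZ : Wt W Z e := wt_top F.fr.hD F.deg
    have h4 : Wt W (Z.prod ops P) (min (e + d) (l + d)) :=
      Wt.prod F.fr G.fr hZ hP (by omega) (by omega) (by omega) (by omega)
    exact Wt.prod (F.fr.prod G.fr) G.fr h4 hP (by omega) (by omega) (by omega) (by omega)
  | s + 1, l, h1, h2, h3 => by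
    set d := P.X.dim with hd
    set e := Z.X.dim with he
    have hP : Wt W P d := wt_top G.fr.hD G.deg
    have e1 : (s + 1 + 2) * d = (s + 2) * d + d := by ring
    rw [e1] at h1 h2 h3
    have h5 : d ≤ (s + 2) * d := Nat.le_mul_of_pos_left _ (by omega)
    have e2 : (s + 2) * P.X.dim = (s + 2) * d := rfl
    have e3 : Z.X.dim = e := rfl
    have h4 : Wt W (tw ops P (s + 2) Z) (min (e + (s + 2) * d) (l + d)) :=
      wt_tower G F s (by omega) (by omega) (by omega)
    rw [show s + 1 + 2 = s + 2 + 1 from rfl, tw_succ]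
    exact Wt.prod (G.tw F (s + 2)).fr G.fr h4 hP (by omega) (by omega) (by omega) (by omega)

end Pool.Agent.H61.HL
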