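import Pool.Graph.R_pool_sql_team_seeded_843ab51a.H44T.SL.Law

/-!
# The number of primitive algebraic classes of one codimension
-/

open CategoryTheory AlgebraicGeometry Finset

universe u v

namespace Pool.Agent.H61.HL

open Pool.Agent.H914 Pool.Agent.H914.VarClass Pool.Agent.H914.VarClass.Obj
  Pool.Agent.H914.WeilCohomology Pool.Agent.H281R3.HT Pool.Agent.W552 Pool.Agent.W539.Ker
  Pool.Agent.H44T.SL

variable {k : Type u} [Field k] {𝒱 : VarClass k} {ops : CycleOps 𝒱}
  {W : WeilCohomology.{u, v} ops} {X Y Z : 𝒱.Obj} {D : X.Cycles} {E : Y.Cycles}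
  {f : Module.End W.K (W.H X)} {g : Module.End W.K (W.H Y)}

/-- The number of primitive classes of codimension `n`: the rank of the form. -/
noncomputable def pn (W : WeilCohomology.{u, v} ops) (X : 𝒱.Obj) (D : X.Cycles) (n : ℕ) : ℕ :=
  posNum W X D n + negNum W X D n

/-- An orthogonal family of primitive cycles with nonzero squares. -/
structure IsFam (W : WeilCohomology.{u, v} ops) (X : 𝒱.Obj) (D : X.Cycles) (n : ℕ)
    {ι : Type*} (z : ι → X.Cycles) : Prop where
  prim : ∀ i, Primitive W X D n (z i)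
  ne : ∀ i, pairing ops X D n (z i) (z i) ≠ 0
  orth : ∀ i j, i ≠ j → pairing ops X D n (z i) (z j) = 0

lemma IsFam.card_le (hD : X.IsCyc 1 D) {n : ℕ} (hn : 2 * n ≤ X.dim) {ι : Type*} [Fintype ι]
    {z : ι → X.Cycles} (h : IsFam W X D n z) : Fintype.card ι ≤ pn W X D n := by
  classical
  obtain ⟨r, x, hx⟩ := exists_prim W hD hn
  rw [pn, rank_eq hD hn hx]
  let z' : ι → PM W X D n := fun i => ⟨z i, h.prim i⟩
  let φ : (ι → ℚ) →ₗ[ℚ] (Fin r → ℚ) :=
    LinearMap.pi fun j => ∑ i, (BP W hD n hn (z' i) (x j)) • LinearMap.proj i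
  have hφ : ∀ (c : ι → ℚ) (j : Fin r), φ c j = BP W hD n hn (∑ i, c i • z' i) (x j) := by
    intro c j
    simp only [φ, LinearMap.pi_apply, LinearMap.sum_apply, LinearMap.smul_apply,
      LinearMap.proj_apply, smul_eq_mul, map_sum, map_smul]
    exact Finset.sum_congr rfl fun i _ => mul_comm _ _
  have hinj : Function.Injective φ := by
    rw [← LinearMap.ker_eq_bot, LinearMap.ker_eq_bot']
    intro c hc
    have h1 : ∀ j, BP W hD n hn (∑ i, c i • z' i) (x j) = 0 := fun j => by
      rw [← hφ, hc]; rfl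
    funext i
    have h2 := om_radical (BP_symm hD hn) hx h1 (z' i)
    rw [map_sum, LinearMap.sum_apply, Finset.sum_eq_single i] at h2
    · rw [map_smul, LinearMap.smul_apply, smul_eq_mul] at h2
      exact (mul_eq_zero.1 h2).resolve_right (h.ne i)
    · intro j _ hj
      rw [map_smul, LinearMap.smul_apply, smul_eq_mul]
      have : BP W hD n hn (z' j) (z' i) = 0 := h.orth j i hj
      rw [this, mul_zero]
    · intro h0; exact absurd (Finset.mem_univ _) h0
  have h3 := LinearMap.finrank_le_finrank_of_injective hinj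
  rwa [Module.finrank_fintype_fun_eq_card, Module.finrank_fin_fun] at h3

lemma exists_isFam (W : WeilCohomology.{u, v} ops) (hD : X.IsCyc 1 D) {n : ℕ}
    (hn : 2 * n ≤ X.dim) : ∃ z : Fin (pn W X D n) → X.Cycles, IsFam W X D n z := by
  obtain ⟨r, x, hx⟩ := exists_prim W hD hn
  have h : pn W X D n = r := rank_eq hD hn hx
  rw [h]
  exact ⟨fun i => (x i : X.Cycles), fun i => (x i).2, fun i => hx.ne i, fun i j hij => hx.orth i j hij⟩

/-- If there are no classes, the form vanishes. -/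
lemma pairing_eq_zero (hD : X.IsCyc 1 D) {n : ℕ} (hn : 2 * n ≤ X.dim) (h0 : pn W X D n = 0)
    {z w : X.Cycles} (hz : Primitive W X D n z) (hw : Primitive W X D n w) :
    pairing ops X D n z w = 0 := by
  obtain ⟨r, x, hx⟩ := exists_prim W hD hn
  have h : pn W X D n = r := rank_eq hD hn hx
  rw [h0] at h
  subst h
  exact om_radical (BP_symm hD hn) hx (u := (⟨z, hz⟩ : PM W X D n)) (fun i => i.elim0) ⟨w, hw⟩

/-- Products of families. -/
lemma pn_mul_le {P : 𝒱.Obj} {B : P.Cycles} (hD : X.IsCyc 1 D) (hE : Y.IsCyc 1 E)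
    (hB : P.IsCyc 1 B) {a b n : ℕ} (ha : 2 * a ≤ X.dim) (hb : 2 * b ≤ Y.dim)
    (hn : 2 * n ≤ P.dim) (m : X.Cycles → Y.Cycles → P.Cycles) {q : ℚ} (hq : q ≠ 0)
    (h1 : ∀ x y, Primitive W X D a x → Primitive W Y E b y → Primitive W P B n (m x y))
    (h2 : ∀ x y x' y', Primitive W X D a x → Primitive W Y E b y → Primitive W X D a x' →
      Primitive W Y E b y' → pairing ops P B n (m x y) (m x' y') =
        q * (pairing ops X D a x x' * pairing ops Y E b y y')) :
    pn W X D a * pn W Y E b ≤ pn W P B n := by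
  obtain ⟨x, hx⟩ := exists_isFam W hD ha
  obtain ⟨y, hy⟩ := exists_isFam W hE hb
  have h : IsFam W P B n (fun p : Fin (pn W X D a) × Fin (pn W Y E b) => m (x p.1) (y p.2)) := by
    refine ⟨fun p => h1 _ _ (hx.prim _) (hy.prim _), fun p => ?_, fun p p' hp => ?_⟩
    · rw [h2 _ _ _ _ (hx.prim _) (hy.prim _) (hx.prim _) (hy.prim _)]
      exact mul_ne_zero hq (mul_ne_zero (hx.ne _) (hy.ne _))
    · rw [h2 _ _ _ _ (hx.prim _) (hy.prim _) (hx.prim _) (hy.prim _)]
      by_cases hp1 : p.1 = p'.1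
      · have hp2 : p.2 ≠ p'.2 := fun h => hp (Prod.ext hp1 h)
        rw [hy.orth _ _ hp2, mul_zero, mul_zero]
      · rw [hx.orth _ _ hp1, zero_mul, mul_zero]
  have := h.card_le hB hn
  rwa [Fintype.card_prod, Fintype.card_fin, Fintype.card_fin] at this

end Pool.Agent.H61.HL
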