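import Pool.Agent.H61.HL.CG

/-!
# Lower bounds for the number of primitive classes of a single codimension
-/

open CategoryTheory AlgebraicGeometry Finset

universe u v

namespace Pool.Agent.H61.HL

open Pool.Agent.H914 Pool.Agent.H914.VarClass Pool.Agent.H914.VarClass.Obj
  Pool.Agent.H914.WeilCohomology Pool.Agent.H281R3.HT Pool.Agent.W552 Pool.Agent.W539.Ker
  Pool.Agent.H44T.SL

variable {k : Type u} [Field k] {𝒱 : VarClass k} {ops : CycleOps 𝒱}
  {W : WeilCohomology.{u, v} ops} {X Y : 𝒱.Obj} {D : X.Cycles} {E : Y.Cycles}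

lemma pn_iso {P Q : Polarized 𝒱} (e : PIso W P Q) (hP : P.X.IsCyc 1 P.D) (hQ : Q.X.IsCyc 1 Q.D)
    {n : ℕ} (hn : 2 * n ≤ P.X.dim) : pn W P.X P.D n = pn W Q.X Q.D n := by
  rw [pn, pn, posNum, negNum, posNum, negNum]
  simp only [e.hasFamily_iff hP hQ hn]

lemma pn_swap (hD : X.IsCyc 1 D) (hE : Y.IsCyc 1 E) {n : ℕ} (hn : 2 * n ≤ X.dim + Y.dim) :
    pn W (X.prod Y) (sD ops D E) n = pn W (Y.prod X) (sD ops E D) n := by
  have h : ∀ (s : ℚ) (r : ℕ), HasFamily W (X.prod Y) (sD ops D E) n s r ↔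
      HasFamily W (Y.prod X) (sD ops E D) n s r := fun s r =>
    ⟨hasFamily_swap hE hD (by omega), hasFamily_swap hD hE hn⟩
  rw [pn, pn, posNum, negNum, posNum, negNum]
  simp only [h]

variable {P Z : Polarized 𝒱} {fP : Module.End W.K (W.H P.X)} {fZ : Module.End W.K (W.H Z.X)}

/-- The number of primitive classes of the middle codimension on the even powers. -/
theorem mid_ge (G : Dat W P fP)
    (hpar : par (W.isInternal P.X) ∈ (Y133.Half.algSys W).Op P.X P.X) (q : ℕ) :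
    Module.finrank W.K (W.H P.X) ^ (2 * q) ≤
      (Module.finrank W.K (W.H P.X) * (2 * P.X.dim + 1) * (P.X.dim + 1)) ^ 2 *
        (q + 1) ^ (2 * Module.finrank W.K (W.H P.X) ^ 2 + 4) *
        pn W (tw ops P (2 * q + 1) P).X (tw ops P (2 * q + 1) P).D ((q + 1) * P.X.dim) := by
  set N := Module.finrank W.K (W.H P.X) with hN
  set d := P.X.dim with hd
  have h1 := total_ge G hpar G q
  rw [← hN, ← hd] at h1
  obtain ⟨Q, hQ⟩ : ∃ Q, Q = tw ops P q P := ⟨_, rfl⟩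
  obtain ⟨fQ, GQ⟩ : ∃ f, Dat W Q f := by rw [hQ]; exact ⟨_, G.tw G q⟩
  rw [← hQ] at h1
  have hQd : Q.X.dim = (q + 1) * d := by
    rw [hQ, tw_dim]; ring
  -- the largest number
  obtain ⟨a, ha, hmax⟩ := Finset.exists_max_image (range (Q.X.dim / 2 + 1))
    (fun n => pn W Q.X Q.D n) ⟨0, by simp⟩
  rw [Finset.mem_range] at ha
  have h2 : numTot W Q.X Q.D ≤ (d + 1) * (q + 1) * pn W Q.X Q.D a := by
    have h3 : numTot W Q.X Q.D = ∑ n ∈ range (Q.X.dim / 2 + 1), pn W Q.X Q.D n := rfl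
    have h4 := Finset.sum_le_card_nsmul _ _ _ hmax
    rw [Finset.card_range, smul_eq_mul, ← h3] at h4
    refine h4.trans (Nat.mul_le_mul_right _ ?_)
    have h5 : Q.X.dim / 2 ≤ (q + 1) * d := by rw [← hQd]; exact Nat.div_le_self _ _
    nlinarith
  have h3 := pn_mid GQ.fr GQ.fr (a := a) (b := a) (by omega) rfl (by omega)
  rw [show a + a + (Q.X.dim - 2 * a) = (q + 1) * d by omega] at h3
  have e : PIso W (Q.prod ops Q) (tw ops P (2 * q + 1) P) := by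
    have e1 := PIso.grp (W := W) P Q q
    rw [hQ, ← PIso.tw_add, show q + 1 + q = 2 * q + 1 by ring] at e1
    rw [hQ]
    exact e1
  have h4 := pn_iso e (n := (q + 1) * d) (sD_cyc GQ.fr.hD GQ.fr.hD)
    (G.tw G (2 * q + 1)).fr.hD (by
      change 2 * ((q + 1) * d) ≤ Q.X.dim + Q.X.dim
      omega)
  have h5 : pn W Q.X Q.D a * pn W Q.X Q.D a ≤
      pn W (tw ops P (2 * q + 1) P).X (tw ops P (2 * q + 1) P).D ((q + 1) * d) := by
    rw [← h4]; exact h3
  set T := pn W Q.X Q.D a with hT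
  have h6 : N ^ q ≤ (N * (2 * d + 1) * (d + 1)) * (q + 1) ^ (N ^ 2 + 2) * T := by
    calc N ^ q ≤ N * (d + d + 1) * (q + 1) ^ (N ^ 2 + 1) * numTot W Q.X Q.D := h1
      _ ≤ N * (d + d + 1) * (q + 1) ^ (N ^ 2 + 1) * ((d + 1) * (q + 1) * T) :=
        Nat.mul_le_mul_left _ h2
      _ = _ := by rw [pow_succ (q + 1) (N ^ 2 + 1)]; ring
  calc N ^ (2 * q) = N ^ q * N ^ q := by rw [two_mul, pow_add]
    _ ≤ ((N * (2 * d + 1) * (d + 1)) * (q + 1) ^ (N ^ 2 + 2) * T) *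
        ((N * (2 * d + 1) * (d + 1)) * (q + 1) ^ (N ^ 2 + 2) * T) := Nat.mul_le_mul h6 h6
    _ = (N * (2 * d + 1) * (d + 1)) ^ 2 * (q + 1) ^ (2 * N ^ 2 + 4) * (T * T) := by
        rw [show 2 * N ^ 2 + 4 = (N ^ 2 + 2) + (N ^ 2 + 2) by ring, pow_add]; ring
    _ ≤ _ := Nat.mul_le_mul_left _ h5

/-- **The number of primitive classes of a single codimension near the middle.** -/
theorem pn_ge (G : Dat W P fP)
    (hpar : par (W.isInternal P.X) ∈ (Y133.Half.algSys W).Op P.X P.X) (F : Dat W Z fZ)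
    (hd : 0 < P.X.dim) {J r n : ℕ} (hr : Z.X.dim + J + 5 ≤ r)
    (hn : 2 * n ≤ (tw ops P r Z).X.dim) (hnJ : (tw ops P r Z).X.dim ≤ 2 * n + J) :
    Module.finrank W.K (W.H P.X) ^ r ≤
      Module.finrank W.K (W.H P.X) ^ (Z.X.dim + J + 5) *
        (Module.finrank W.K (W.H P.X) * (2 * P.X.dim + 1) * (P.X.dim + 1)) ^ 2 *
        (r + 1) ^ (2 * Module.finrank W.K (W.H P.X) ^ 2 + 4) *
          pn W (tw ops P r Z).X (tw ops P r Z).D n := by
  set N := Module.finrank W.K (W.H P.X) with hN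
  have hN1 : 0 < N := finrank_pos G
  set d := P.X.dim with hdd
  set e := Z.X.dim with he
  -- the decomposition of the exponent
  obtain ⟨q, s, hqs, hs1, hs2⟩ : ∃ q s, r = 2 * q + 2 + (s + 2) ∧ e + J ≤ s ∧ s ≤ e + J + 1 := by
    rcases Nat.even_or_odd (r - (e + J)) with h | h
    · obtain ⟨c, hc⟩ := h
      exact ⟨c - 2, e + J, by omega, le_rfl, by omega⟩
    · obtain ⟨c, hc⟩ := h
      exact ⟨c - 2, e + J + 1, by omega, by omega, le_rfl⟩
  have h5 := mid_ge G hpar q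
  obtain ⟨Y, hY⟩ : ∃ Y, Y = tw ops P (s + 2) Z := ⟨_, rfl⟩
  obtain ⟨M, hM⟩ : ∃ M, M = tw ops P (2 * q + 1) P := ⟨_, rfl⟩
  obtain ⟨fY, FY⟩ : ∃ f, Dat W Y f := by rw [hY]; exact ⟨_, G.tw F (s + 2)⟩
  obtain ⟨fM, FM⟩ : ∃ f, Dat W M f := by rw [hM]; exact ⟨_, G.tw G (2 * q + 1)⟩
  have hYd : Y.X.dim = e + (s + 2) * d := by rw [hY, tw_dim]
  have hMd : M.X.dim = 2 * ((q + 1) * d) := by rw [hM, tw_dim]; ring
  have hrd : (tw ops P r Z).X.dim = e + r * d := by rw [tw_dim]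
  have hrd' : r * d = 2 * ((q + 1) * d) + (s + 2) * d := by rw [hqs]; ring
  have hsd : s + 2 ≤ (s + 2) * d := Nat.le_mul_of_pos_right _ hd
  -- the isomorphism
  have eI : PIso W (Y.prod ops M) (tw ops P r Z) := by
    have e1 := PIso.grp (W := W) P Y (2 * q + 1)
    rw [hY, ← PIso.tw_add, show 2 * q + 1 + 1 + (s + 2) = r by omega] at e1
    rw [hY, hM]
    exact e1
  obtain ⟨b, hb⟩ : ∃ b, n = (q + 1) * d + b := ⟨n - (q + 1) * d, by omega⟩
  have hwt : Wt W Y (Y.X.dim - 2 * b) := by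
    rw [hY]
    rw [hY] at hYd
    apply wt_tower G F s
    · rw [← hdd, ← he]; omega
    · rw [← hdd, ← he]; omega
    · rw [← hdd, ← he]; omega
  have h1 := hwt.one_le FY.fr.hD (a := b) (by omega)
  have h2 := pn_mul FM.fr FY.fr (a := (q + 1) * d) (b := b) hMd (by omega)
  rw [pn_swap FM.fr.hD FY.fr.hD (by omega), ← hb] at h2
  have h3 := pn_iso eI (n := n) (sD_cyc FY.fr.hD FM.fr.hD) (G.tw F r).fr.hD (by
    rw [eI.dim]; exact hn)
  have h4 : pn W M.X M.D ((q + 1) * d) ≤ pn W (tw ops P r Z).X (tw ops P r Z).D n := by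
    rw [← h3]
    refine le_trans ?_ h2
    exact Nat.le_mul_of_pos_right _ h1
  rw [← hN, ← hdd, ← hM] at h5
  set T := pn W (tw ops P r Z).X (tw ops P r Z).D n with hT
  calc N ^ r ≤ N ^ (e + J + 5 + 2 * q) := Nat.pow_le_pow_right hN1 (by omega)
    _ = N ^ (e + J + 5) * N ^ (2 * q) := pow_add _ _ _
    _ ≤ N ^ (e + J + 5) * ((N * (2 * d + 1) * (d + 1)) ^ 2 * (q + 1) ^ (2 * N ^ 2 + 4) *
        pn W M.X M.D ((q + 1) * d)) := Nat.mul_le_mul_left _ h5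
    _ ≤ N ^ (e + J + 5) * ((N * (2 * d + 1) * (d + 1)) ^ 2 * (r + 1) ^ (2 * N ^ 2 + 4) * T) := by
        apply Nat.mul_le_mul_left
        apply Nat.mul_le_mul _ h4
        apply Nat.mul_le_mul_left
        exact Nat.pow_le_pow_left (by omega) _
    _ = _ := by ring

end Pool.Agent.H61.HL
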