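import Pool.Agent.H61.HL.Cls

/-!
# Primitive classes on a product
-/

open CategoryTheory AlgebraicGeometry Finset

universe u v

namespace Pool.Agent.H61.HL

open Pool.Agent.H914 Pool.Agent.H914.VarClass Pool.Agent.H914.VarClass.Obj
  Pool.Agent.H914.WeilCohomology Pool.Agent.H281R3.HT Pool.Agent.W552 Pool.Agent.W539.Ker
  Pool.Agent.H44T.SL

section Abs

variable {K V : Type*} [Field K] [AddCommGroup V] [Module K V]

/-- A telescoping alternating sum. -/
lemma alt_sum (a : ℕ → V) : ∀ n : ℕ, ∑ i ∈ range (n + 1), (-1 : K) ^ i • (a (i + 1) + a i) =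
    a 0 + (-1 : K) ^ n • a (n + 1)
  | 0 => by simp [add_comm]
  | n + 1 => by
    rw [sum_range_succ, alt_sum a n, smul_add, pow_succ, mul_neg_one]
    simp only [neg_smul]
    abel

end Abs

variable {k : Type u} [Field k] {𝒱 : VarClass k} {ops : CycleOps 𝒱}
  {W : WeilCohomology.{u, v} ops} {X Y Z : 𝒱.Obj} {D : X.Cycles} {E : Y.Cycles}
  {f : Module.End W.K (W.H X)} {g : Module.End W.K (W.H Y)}

/-- Multiplication by the class of the divisor. -/
noncomputable abbrev Lm (W : WeilCohomology.{u, v} ops) (X : 𝒱.Obj) (D : X.Cycles) :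
    Module.End W.K (W.H X) := LinearMap.mulLeft W.K (W.cl X D)

/-- The sum divisor. -/
noncomputable abbrev sD (ops : CycleOps 𝒱) {X Y : 𝒱.Obj} (D : X.Cycles) (E : Y.Cycles) :
    (X.prod Y).Cycles := ops.pull (fst X Y) D + ops.pull (snd X Y) E

lemma sD_cyc (hD : X.IsCyc 1 D) (hE : Y.IsCyc 1 E) : (X.prod Y).IsCyc 1 (sD ops D E) :=
  SmVar.IsCyc.add (ops.pull_mem _ hD) (ops.pull_mem _ hE)

lemma ext_add_left (a a' : W.H X) (b : W.H Y) : ext W (a + a') b = ext W a b + ext W a' b := by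
  simp only [H281R3.HT.ext, map_add, add_mul]

lemma ext_zero_left (b : W.H Y) : ext W (0 : W.H X) b = 0 := by
  simp only [H281R3.HT.ext, map_zero, zero_mul]

lemma ext_zero_right (a : W.H X) : ext W a (0 : W.H Y) = 0 := by
  simp only [H281R3.HT.ext, map_zero, mul_zero]

lemma L_ext (hE : Y.IsCyc 1 E) (a : W.H X) (b : W.H Y) :
    Lm W (X.prod Y) (sD ops D E) (ext W a b) = ext W (Lm W X D a) b + ext W a (Lm W Y E b) := by
  change LinearMap.mulLeft W.K (W.cl (X.prod Y) (ops.pull (fst X Y) D + ops.pull (snd X Y) E)) _ = _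
  rw [mulLeft_prod hE, H281R3.HT.ext, extSum_tmul]
  rfl

/-- The alternating sum `∑ (-1) ^ i L ^ i a ⊗ L ^ (n - i) b`. -/
noncomputable def alt (W : WeilCohomology.{u, v} ops) {X Y : 𝒱.Obj} (D : X.Cycles) (E : Y.Cycles)
    (n : ℕ) (a : W.H X) (b : W.H Y) : W.H (X.prod Y) :=
  ∑ i ∈ range (n + 1), (-1 : W.K) ^ i • ext W ((Lm W X D ^ i) a) ((Lm W Y E ^ (n - i)) b)

lemma L_alt (hE : Y.IsCyc 1 E) (n : ℕ) (a : W.H X) (b : W.H Y) :
    Lm W (X.prod Y) (sD ops D E) (alt W D E n a b) = ext W a ((Lm W Y E ^ (n + 1)) b) +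
      (-1 : W.K) ^ n • ext W ((Lm W X D ^ (n + 1)) a) b := by
  have h := alt_sum (K := W.K)
    (fun i => ext W ((Lm W X D ^ i) a) ((Lm W Y E ^ (n + 1 - i)) b)) n
  rw [pow_zero, Module.End.one_apply, Nat.sub_zero, Nat.sub_self, pow_zero,
    Module.End.one_apply] at h
  rw [← h, alt, map_sum]
  apply Finset.sum_congr rfl
  intro i hi
  rw [Finset.mem_range] at hi
  rw [map_smul, L_ext hE, ← Module.End.mul_apply, ← pow_succ', ← Module.End.mul_apply,
    ← pow_succ', show n - i + 1 = n + 1 - i by omega, show n + 1 - (i + 1) = n - i by omega]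

lemma ext_alg {a b : ℕ} {x : W.H X} {y : W.H Y} (hx : x ∈ algClasses W X a)
    (hy : y ∈ algClasses W Y b) : ext W x y ∈ algClasses W (X.prod Y) (a + b) :=
  alg_mul (alg_map _ hx) (alg_map _ hy)

lemma L_alg (F : Fr W X D f) {a : ℕ} {x : W.H X} (hx : x ∈ algClasses W X a) (j : ℕ) :
    (Lm W X D ^ j) x ∈ algClasses W X (a + j) := (ap_alg F).map_L_pow j hx

lemma alt_alg (F : Fr W X D f) (G : Fr W Y E g) {a b : ℕ} {x : W.H X} {y : W.H Y}
    (hx : x ∈ algClasses W X a) (hy : y ∈ algClasses W Y b) (n : ℕ) :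
    alt W D E n x y ∈ algClasses W (X.prod Y) (a + b + n) := by
  rw [alt]
  have key : ∀ s : Finset ℕ, s ⊆ range (n + 1) →
      ∑ i ∈ s, (-1 : W.K) ^ i • ext W ((Lm W X D ^ i) x) ((Lm W Y E ^ (n - i)) y) ∈
        algClasses W (X.prod Y) (a + b + n) := by
    classical
    intro s
    induction s using Finset.induction_on with
    | empty => intro _; rw [Finset.sum_empty]; exact alg_zero _
    | insert i s hi ih =>
      intro hs
      rw [Finset.sum_insert hi]
      refine alg_add ?_ (ih fun j hj => hs (Finset.mem_insert_of_mem hj))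
      have h1 := Finset.mem_range.1 (hs (Finset.mem_insert_self i s))
      have h2 := alg_smul ((-1 : ℚ) ^ i) (ext_alg (L_alg F hx i) (L_alg G hy (n - i)))
      rw [show a + i + (b + (n - i)) = a + b + n by omega] at h2
      simpa using h2
  exact key _ (Finset.Subset.refl _)

/-- The form on two alternating sums. -/
lemma bf_alt (F : Fr W X D f) (G : Fr W Y E g) {a b : ℕ} (ha : 2 * a ≤ X.dim)
    (hab : X.dim - 2 * a = Y.dim - 2 * b) (hb : 2 * b ≤ Y.dim) {x x' : X.Cycles} {y y' : Y.Cycles}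
    (hx : Primitive W X D a x) (hx' : Primitive W X D a x') (hy : Primitive W Y E b y)
    (hy' : Primitive W Y E b y') :
    bf W (X.prod Y) (sD ops D E) (extSum W f g)
      (alt W D E (X.dim - 2 * a) (W.cl X x) (W.cl Y y))
      (alt W D E (X.dim - 2 * a) (W.cl X x') (W.cl Y y')) =
      (((X.dim - 2 * a + 1 : ℕ) * (pairing ops X D a x x' * pairing ops Y E b y y') : ℚ) :
        W.K) := by
  set K := X.dim - 2 * a with hK
  have h0 : alt W D E K (W.cl X x) (W.cl Y y) = ∑ i ∈ range (K + 1), (-1 : W.K) ^ i •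
      ext W ((Lm W X D ^ i) (W.cl X x)) ((Lm W Y E ^ (K - i)) (W.cl Y y)) := rfl
  rw [h0, map_sum (bf W (X.prod Y) (sD ops D E) (extSum W f g)), LinearMap.sum_apply]
  have h1 : ∀ i ∈ range (K + 1), (bf W (X.prod Y) (sD ops D E) (extSum W f g)
      ((-1 : W.K) ^ i • ext W ((Lm W X D ^ i) (W.cl X x)) ((Lm W Y E ^ (K - i)) (W.cl Y y))))
      (alt W D E K (W.cl X x') (W.cl Y y')) =
      ((pairing ops X D a x x' * pairing ops Y E b y y' : ℚ) : W.K) := by
    intro i hi
    have hiK : i ≤ K := by rw [Finset.mem_range] at hi; omega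
    rw [alt, map_sum, Finset.sum_eq_single i]
    · rw [map_smul, map_smul, LinearMap.smul_apply, F.bf_ext G,
        bf_same F ha hx hx' (j := i) (by omega), bf_same G hb hy hy' (j := K - i) (by omega),
        smul_eq_mul, smul_eq_mul, ← mul_assoc, ← mul_pow, neg_one_mul, neg_neg, one_pow, one_mul,
        ← Rat.cast_mul]
      congr 1
      have e1 : X.dim - 2 * a - i = K - i := rfl
      have e2 : Y.dim - 2 * b - (K - i) = i := by omega
      rw [e1, e2]
      have h2 : ((i.factorial : ℚ)) ≠ 0 := by positivity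
      have h3 : (((K - i).factorial : ℚ)) ≠ 0 := by positivity
      field_simp
    · intro j hj hji
      have hjK : j ≤ K := by rw [Finset.mem_range] at hj; omega
      rw [map_smul, map_smul, LinearMap.smul_apply, F.bf_ext G,
        F.bf_deg (alg_gr (L_alg F ⟨x, hx.1, rfl⟩ i)) (alg_gr (L_alg F ⟨x', hx'.1, rfl⟩ j))
          (by omega), zero_mul, smul_zero, smul_zero]
    · intro h0; exact absurd hi h0
  rw [Finset.sum_congr rfl h1, Finset.sum_const, Finset.card_range, nsmul_eq_mul]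
  push_cast
  ring

/-- **Classes of the middle codimension.** -/
theorem pn_mid (F : Fr W X D f) (G : Fr W Y E g) {a b : ℕ} (ha : 2 * a ≤ X.dim)
    (hab : X.dim - 2 * a = Y.dim - 2 * b) (hb : 2 * b ≤ Y.dim) :
    pn W X D a * pn W Y E b ≤ pn W (X.prod Y) (sD ops D E) (a + b + (X.dim - 2 * a)) := by
  classical
  set K := X.dim - 2 * a with hK
  have hdim : (X.prod Y).dim = 2 * (a + b + K) := by rw [dim_prod]; omega
  have key : ∀ (x : X.Cycles) (y : Y.Cycles), ∃ z : (X.prod Y).Cycles, Primitive W X D a x →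
      Primitive W Y E b y → (X.prod Y).IsCyc (a + b + K) z ∧
        W.cl (X.prod Y) z = alt W D E K (W.cl X x) (W.cl Y y) := by
    intro x y
    by_cases h : Primitive W X D a x ∧ Primitive W Y E b y
    · obtain ⟨z, hz, hz'⟩ := alt_alg F G (a := a) (b := b) ⟨x, h.1.1, rfl⟩ ⟨y, h.2.1, rfl⟩ K
      exact ⟨z, fun _ _ => ⟨hz, hz'⟩⟩
    · exact ⟨0, fun h1 h2 => absurd ⟨h1, h2⟩ h⟩
  choose m hm using key
  have hprim : ∀ x y, Primitive W X D a x → Primitive W Y E b y →
      Primitive W (X.prod Y) (sD ops D E) (a + b + K) (m x y) := by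
    intro x y hx hy
    obtain ⟨h1, h2⟩ := hm x y hx hy
    refine ⟨h1, ?_⟩
    rw [hdim, Nat.sub_self, cl_divPow, zero_add, pow_one, h2]
    have h3 := L_alt (D := D) G.hD K (W.cl X x) (W.cl Y y)
    have h4 : (Lm W X D ^ (K + 1)) (W.cl X x) = 0 := by rw [← cl_divPow]; exact hx.2
    have h5 : (Lm W Y E ^ (K + 1)) (W.cl Y y) = 0 := by
      rw [hab, ← cl_divPow]; exact hy.2
    rw [h4, h5, ext_zero_left, ext_zero_right, smul_zero, add_zero] at h3
    exact h3
  refine pn_mul_le F.hD G.hD (sD_cyc F.hD G.hD) ha hb (by rw [hdim]) m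
    (q := ((K + 1 : ℕ) : ℚ)) (by positivity) hprim ?_
  intro x y x' y' hx hy hx' hy'
  have h1 := bf_same (F.prod G) (n := a + b + K) (by rw [hdim]) (hprim x y hx hy)
    (hprim x' y' hx' hy') (j := 0) (Nat.zero_le _)
  rw [pow_zero, Module.End.one_apply, Module.End.one_apply, (hm x y hx hy).2,
    (hm x' y' hx' hy').2, bf_alt F G ha hab hb hx hx' hy hy', hdim, Nat.sub_self] at h1
  have h2 := Rat.cast_injective h1
  rw [← h2.symm]
  simp

/-- **Products with classes of the middle codimension.** -/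
theorem pn_mul (F : Fr W X D f) (G : Fr W Y E g) {a b : ℕ} (ha : X.dim = 2 * a)
    (hb : 2 * b ≤ Y.dim) :
    pn W X D a * pn W Y E b ≤ pn W (X.prod Y) (sD ops D E) (a + b) := by
  classical
  have hdim : (X.prod Y).dim - 2 * (a + b) = Y.dim - 2 * b := by rw [dim_prod]; omega
  have hle : 2 * (a + b) ≤ (X.prod Y).dim := by rw [dim_prod]; omega
  have key : ∀ (x : X.Cycles) (y : Y.Cycles), ∃ z : (X.prod Y).Cycles, Primitive W X D a x →
      Primitive W Y E b y → (X.prod Y).IsCyc (a + b) z ∧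
        W.cl (X.prod Y) z = ext W (W.cl X x) (W.cl Y y) := by
    intro x y
    by_cases h : Primitive W X D a x ∧ Primitive W Y E b y
    · obtain ⟨z, hz, hz'⟩ := ext_alg (a := a) (b := b) (x := W.cl X x) (y := W.cl Y y)
        ⟨x, h.1.1, rfl⟩ ⟨y, h.2.1, rfl⟩
      exact ⟨z, fun _ _ => ⟨hz, hz'⟩⟩
    · exact ⟨0, fun h1 h2 => absurd ⟨h1, h2⟩ h⟩
  choose m hm using key
  have hL0 : ∀ x, Primitive W X D a x → Lm W X D (W.cl X x) = 0 := by
    intro x hx
    have := hx.2
    rwa [ha, Nat.sub_self, zero_add, cl_divPow, pow_one] at this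
  have hpow : ∀ x, Primitive W X D a x → ∀ (j : ℕ) (b : W.H Y),
      (Lm W (X.prod Y) (sD ops D E) ^ j) (ext W (W.cl X x) b) =
        ext W (W.cl X x) ((Lm W Y E ^ j) b) := by
    intro x hx j
    induction j with
    | zero => intro b; rfl
    | succ j ih =>
      intro b
      rw [pow_succ, Module.End.mul_apply, L_ext G.hD, hL0 x hx, ext_zero_left, zero_add, ih,
        pow_succ (Lm W Y E), Module.End.mul_apply]
  have hprim : ∀ x y, Primitive W X D a x → Primitive W Y E b y →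
      Primitive W (X.prod Y) (sD ops D E) (a + b) (m x y) := by
    intro x y hx hy
    obtain ⟨h1, h2⟩ := hm x y hx hy
    refine ⟨h1, ?_⟩
    rw [hdim, cl_divPow, h2]
    refine (hpow x hx _ _).trans ?_
    have h5 : (Lm W Y E ^ (Y.dim - 2 * b + 1)) (W.cl Y y) = 0 := by
      rw [← cl_divPow]; exact hy.2
    rw [h5, ext_zero_right]
  refine pn_mul_le F.hD G.hD (sD_cyc F.hD G.hD) ha.ge hb hle m
    (q := 1) one_ne_zero hprim ?_
  intro x y x' y' hx hy hx' hy'
  have h1 := bf_same (F.prod G) hle (hprim x y hx hy)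
    (hprim x' y' hx' hy') (j := 0) (Nat.zero_le _)
  rw [pow_zero, Module.End.one_apply, Module.End.one_apply, (hm x y hx hy).2,
    (hm x' y' hx' hy').2, F.bf_ext G] at h1
  have h2 := bf_same F ha.ge hx hx' (j := 0) (Nat.zero_le _)
  have h3 := bf_same G hb hy hy' (j := 0) (Nat.zero_le _)
  rw [pow_zero, Module.End.one_apply, Module.End.one_apply] at h2 h3
  rw [h2, h3, ← Rat.cast_mul, hdim, ha, Nat.sub_self] at h1
  have h4 := Rat.cast_injective h1
  have h5 : (((Y.dim - 2 * b - 0).factorial : ℚ)) ≠ 0 := by positivity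
  simp only [Nat.factorial_zero, Nat.cast_one, inv_one, one_mul, Nat.sub_zero] at h4 h5
  rw [one_mul]
  field_simp at h4
  exact h4.symm

end Pool.Agent.H61.HL
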